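import Pool.Agent.Helper741.Her.Example

/-!
# A non-separable C*-algebra on a separable Hilbert space with hereditary minimal tensor square
-/

namespace Pool.Agent.Results.MP_df00b4_an.Hereditary

noncomputable section

/-! ## Left Banach modules, projectivity, hereditary Banach algebras -/

/-- A left Banach module structure on the normed space `X` over the normed algebra `R`: a bounded
bilinear associative action. -/
structure LeftModule (R X : Type*) [NonUnitalNormedRing R] [NormedSpace ℂ R]
    [NormedAddCommGroup X] [NormedSpace ℂ X] where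
  act : R → X → X
  add_act : ∀ a b x, act (a + b) x = act a x + act b x
  act_add : ∀ a x y, act a (x + y) = act a x + act a y
  smul_act : ∀ (c : ℂ) a x, act (c • a) x = c • act a x
  act_smul : ∀ (c : ℂ) a x, act a (c • x) = c • act a x
  mul_act : ∀ a b x, act (a * b) x = act a (act b x)
  bound : ∃ C : ℝ, ∀ a x, ‖act a x‖ ≤ C * ‖a‖ * ‖x‖

/-- A bounded linear map `σ : X → Y` is a morphism of left Banach modules. -/
def IsMorphism {R X Y : Type*} [NonUnitalNormedRing R] [NormedSpace ℂ R]
    [NormedAddCommGroup X] [NormedSpace ℂ X] [NormedAddCommGroup Y] [NormedSpace ℂ Y]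
    (mX : LeftModule R X) (mY : LeftModule R Y) (σ : X →L[ℂ] Y) : Prop :=
  ∀ a x, σ (mX.act a x) = mY.act a (σ x)

/-- Projectivity of the left Banach module `P`: every morphism `φ : P → Y` lifts along every
morphism `σ : X → Y` of left Banach modules that has a bounded linear right inverse `r`. -/
def IsProjective.{u} {R P : Type} [NonUnitalNormedRing R] [NormedSpace ℂ R]
    [NormedAddCommGroup P] [NormedSpace ℂ P] (m : LeftModule R P) : Prop :=
  ∀ (X Y : Type u) [NormedAddCommGroup X] [NormedSpace ℂ X] [CompleteSpace X]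
    [NormedAddCommGroup Y] [NormedSpace ℂ Y] [CompleteSpace Y]
    (mX : LeftModule R X) (mY : LeftModule R Y) (σ : X →L[ℂ] Y) (r : Y →L[ℂ] X)
    (φ : P →L[ℂ] Y), IsMorphism mX mY σ → σ.comp r = ContinuousLinearMap.id ℂ Y →
    IsMorphism m mY φ → ∃ ψ : P →L[ℂ] X, IsMorphism m mX ψ ∧ σ.comp ψ = φ

/-- The left ideal `L` as a left module: the action is multiplication. -/
def idealModule {R : Type} [NonUnitalNormedRing R] [NormedSpace ℂ R] [IsScalarTower ℂ R R]
    [SMulCommClass ℂ R R] (L : Submodule ℂ R) (hL : ∀ a x : R, x ∈ L → a * x ∈ L) :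
    LeftModule R L where
  act a x := ⟨a * (x : R), hL a x x.2⟩
  add_act a b x := Subtype.ext (add_mul a b (x : R))
  act_add a x y := Subtype.ext (mul_add a (x : R) (y : R))
  smul_act c a x := Subtype.ext (smul_mul_assoc c a (x : R))
  act_smul c a x := Subtype.ext (mul_smul_comm c a (x : R))
  mul_act a b x := Subtype.ext (mul_assoc a b (x : R))
  bound := ⟨1, fun a x => by rw [one_mul]; exact norm_mul_le a (x : R)⟩

/-- The Banach algebra `R` is left hereditary: every closed left ideal is a projective left Banach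
module. -/
def IsHereditary.{u} (R : Type) [NonUnitalNormedRing R] [NormedSpace ℂ R] [IsScalarTower ℂ R R]
    [SMulCommClass ℂ R R] : Prop :=
  ∀ (L : Submodule ℂ R) (_ : IsClosed (L : Set R)) (hL : ∀ a x : R, x ∈ L → a * x ∈ L),
    IsProjective.{u} (idealModule L hL)

/-! ## The Hilbert space `ℓ²(ι)`, its operators and the minimal tensor square -/

/-- The Hilbert space `ℓ²(ι)`. -/
def Hil (ι : Type) : Type := lp (fun _ : ι => ℂ) 2

instance (ι : Type) : NormedAddCommGroup (Hil ι) :=
  (inferInstance : NormedAddCommGroup (lp (fun _ : ι => ℂ) 2))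

instance (ι : Type) : InnerProductSpace ℂ (Hil ι) :=
  (inferInstance : InnerProductSpace ℂ (lp (fun _ : ι => ℂ) 2))

instance (ι : Type) : CompleteSpace (Hil ι) :=
  (inferInstance : CompleteSpace (lp (fun _ : ι => ℂ) 2))

/-- The coordinates of a vector of `ℓ²(ι)`. -/
def coord {ι : Type} (F : Hil ι) (i : ι) : ℂ := F.1 i

/-- The C*-algebra `B(ℓ²(ι))`. -/
def BH (ι : Type) : Type := Hil ι →L[ℂ] Hil ι

instance (ι : Type) : CStarAlgebra (BH ι) := (inferInstance : CStarAlgebra (Hil ι →L[ℂ] Hil ι))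

/-- The value of an operator at a vector. -/
def app {ι : Type} : BH ι → Hil ι → Hil ι := fun (T : Hil ι →L[ℂ] Hil ι) f => T f

/-- `T = a ⊗ b` on `ℓ²(ι × ι) = ℓ²(ι) ⊗ ℓ²(ι)`: `T (f ⊗ g) = a f ⊗ b g`. -/
def IsTensor {ι : Type} (a b : BH ι) (T : BH (ι × ι)) : Prop :=
  ∀ (f g : Hil ι) (F : Hil (ι × ι)), (∀ i k, coord F (i, k) = coord f i * coord g k) →
    ∀ i k, coord (app T F) (i, k) = coord (app a f) i * coord (app b g) k

/-- *-subalgebras of a C*-algebra. -/
abbrev SubAlg (𝔸 : Type) [CStarAlgebra 𝔸] : Type := NonUnitalStarSubalgebra ℂ 𝔸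

/-- The C*-subalgebra generated by a set: the norm closure of the generated *-algebra. -/
def gen {𝔸 : Type} [CStarAlgebra 𝔸] (S : Set 𝔸) : SubAlg 𝔸 :=
  (NonUnitalStarAlgebra.adjoin ℂ S).topologicalClosure

/-- The generated C*-algebra as a type. -/
def Gen {𝔸 : Type} [CStarAlgebra 𝔸] (S : Set 𝔸) : Type := gen S

instance {𝔸 : Type} [CStarAlgebra 𝔸] (S : Set 𝔸) : NonUnitalCStarAlgebra (Gen S) :=
  NonUnitalStarSubalgebra.nonUnitalCStarAlgebra (gen S)
    (h_closed := NonUnitalStarSubalgebra.isClosed_topologicalClosure _)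

/-- The elementary tensors `a ⊗ b` with `a, b ∈ A`. -/
def tensors {ι : Type} (A : SubAlg (BH ι)) : Set (BH (ι × ι)) :=
  {T | ∃ a ∈ A, ∃ b ∈ A, IsTensor a b T}

/-- The minimal (spatial) tensor product `A ⊗_min A` for `A ⊆ B(ℓ²(ι))`: the C*-algebra on
`ℓ²(ι × ι) = ℓ²(ι) ⊗ ℓ²(ι)` generated by the elementary tensors of elements of `A`. -/
abbrev MinSq {ι : Type} (A : SubAlg (BH ι)) : Type := Gen (tensors A)

/-! ## Comparison with the working definitions of the proof -/

open Pool.Agent.Helper741

/-- The action as a continuous bilinear map. -/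
def toHer {R X : Type*} [NonUnitalNormedRing R] [NormedSpace ℂ R]
    [NormedAddCommGroup X] [NormedSpace ℂ X] (m : LeftModule R X) : Her.LeftModule R X where
  act := LinearMap.mkContinuous₂ (LinearMap.mk₂ ℂ m.act m.add_act m.smul_act m.act_add m.act_smul)
    (Classical.choose m.bound) (fun a x => Classical.choose_spec m.bound a x)
  mul_act := m.mul_act

theorem isHereditary_of.{u} {R : Type} [NonUnitalNormedRing R] [NormedSpace ℂ R]
    [IsScalarTower ℂ R R] [SMulCommClass ℂ R R] (h : Her.IsHereditary.{u} R) :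
    IsHereditary.{u} R := by
  intro L hc hL X Y _ _ _ _ _ _ mX mY σ r φ hσ hr hφ
  obtain ⟨ψ, h1, h2⟩ := h L hc hL X Y (toHer mX) (toHer mY) σ hσ r
    (fun y => by simpa using DFunLike.congr_fun hr y) φ hφ
  exact ⟨ψ, h1, ContinuousLinearMap.ext h2⟩

/-- There is a non-separable C*-subalgebra `A` of `B(H)`, where `H = ℓ²(ι)` with `ι` countable is
a separable Hilbert space, such that `A ⊗_min A` is hereditary. -/
theorem result.{u} : ∃ (ι : Type) (_ : Countable ι) (A : SubAlg (BH ι)),
    TopologicalSpace.SeparableSpace (Hil ι) ∧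
    IsClosed (A : Set (BH ι)) ∧ ¬ TopologicalSpace.IsSeparable (A : Set (BH ι)) ∧
      IsHereditary.{u} (MinSq A) := by
  have hc : IsClosed (Her.AW Her.W0 : Set (Her.Op (ℕ × FreeGroup Her.Sg))) :=
    NonUnitalStarSubalgebra.isClosed_topologicalClosure _
  refine ⟨ℕ × FreeGroup Her.Sg, inferInstance, Her.AW Her.W0, Her.separable_L2 _, hc,
    Her.W0_not_separable, isHereditary_of ?_⟩
  exact Her.hereditary_W0

end

end Pool.Agent.Results.MP_df00b4_an.Hereditary
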